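import Pool.Agent.H835R5.Fin
import Pool.Agent.H835R3.Coh

set_option autoImplicit false

open CategoryTheory AlgebraicGeometry TopologicalSpace Opposite Limits Abelian

namespace Pool.Agent.H835R5.AsmB

open Pool.Agent.H835R5

/-- the additive structure presheaf -/
noncomputable def addP (X : Scheme.{0}) : TopCat.Presheaf AddCommGrpCat.{0} X.toTopCat where
  obj U := AddCommGrpCat.of (X.presheaf.obj U)
  map i := AddCommGrpCat.ofHom ((X.presheaf.map i).hom : _ →+ _)
  map_id U := by
    ext u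
    exact congrArg (fun φ => φ.hom u) (X.presheaf.map_id U)
  map_comp i j := by
    ext u
    exact congrArg (fun φ => φ.hom u) (X.presheaf.map_comp i j)

lemma addP_isSheaf (X : Scheme.{0}) : (addP X).IsSheaf := by
  rw [TopCat.Presheaf.isSheaf_iff_isSheafUniqueGluing]
  intro ι U sf hsf
  let sf' : ∀ i, X.presheaf.obj (op (U i)) := fun i => sf i
  have h' : TopCat.Presheaf.IsCompatible X.sheaf.obj U sf' := fun i j => hsf i j
  exact TopCat.Sheaf.existsUnique_gluing X.sheaf U sf' h'

/-- the additive structure sheaf -/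
noncomputable def addS (X : Scheme.{0}) : Sheaf (Opens.grothendieckTopology X) AddCommGrpCat.{0} :=
  ⟨addP X, addP_isSheaf X⟩

lemma val_add {T : TopCat.{0}} {R : TopCat.Presheaf CommRingCat.{0} T} {U : (Opens T)ᵒᵖ}
    (u v : UnitsOn R U) : (u + v).val = u.val * v.val := rfl

lemma val_neg_mul {T : TopCat.{0}} {R : TopCat.Presheaf CommRingCat.{0} T}
    {U : (Opens T)ᵒᵖ} (u : UnitsOn R U) : (-u).val * u.val = 1 :=
  Units.inv_mul (show (R.obj U)ˣ from u)

/-- the logarithmic derivative -/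
noncomputable def dlogHom {X : Scheme.{0}} (d : DerX X) (U : (Opens X)ᵒᵖ) :
    UnitsOn X.presheaf U →+ (X.presheaf.obj U) :=
  AddMonoidHom.mk' (fun u => (show Γ(X, U.unop) from (-u).val) * d.D U.unop u.val) (by
    intro u v
    have h1 := val_neg_mul u
    have h2 := val_neg_mul v
    have h3 : (-(u + v)).val = (-u).val * (-v).val := by rw [neg_add, val_add]
    have h4 := d.leib U.unop u.val v.val
    change (-(u + v)).val * d.D U.unop (u.val * v.val) = (-u).val * d.D U.unop u.val +
      (-v).val * d.D U.unop v.val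
    rw [h4, h3]
    linear_combination (exp := 1) ((-v).val * d.D U.unop v.val) * h1 +
      ((-u).val * d.D U.unop u.val) * h2)

lemma dlog_nat {X : Scheme.{0}} (d : DerX X) {U V : (Opens X)ᵒᵖ} (i : U ⟶ V)
    (u : UnitsOn X.presheaf U) : dlogHom d V (unitsHom (R' := X.presheaf) (X.presheaf.map i) u) =
      (X.presheaf.map i).hom (dlogHom d U u) := by
  have h := d.res U.unop V.unop i.unop.le u.val
  change (-(unitsHom (R' := X.presheaf) (X.presheaf.map i) u)).val *
      d.D V.unop (unitsHom (R' := X.presheaf) (X.presheaf.map i) u).val =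
        (X.presheaf.map i).hom ((-u).val * d.D U.unop u.val)
  rw [← map_neg, map_mul]
  exact congrArg₂ (· * ·) rfl h.symm

/-- the logarithmic derivative as a map of presheaves -/
noncomputable def dlogP {X : Scheme.{0}} (d : DerX X) : unitsPresheaf X.presheaf ⟶ addP X where
  app U := AddCommGrpCat.ofHom (dlogHom d U)
  naturality U V i := by
    ext u
    exact dlog_nat d i u

/-- the logarithmic derivative as a map of sheaves -/
noncomputable def dlogS {X : Scheme.{0}} (d : DerX X) :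
    unitsSheaf X.presheaf X.sheaf.2 ⟶ addS X := ⟨dlogP d⟩

lemma dlog_two {X : Scheme.{0}} (d : DerX X) (h2 : (2 : Γ(X, ⊤)) = 0) :
    dlogS d + dlogS d = 0 := by
  apply Sheaf.hom_ext
  ext U u
  have h : (2 : Γ(X, U.unop)) = 0 := by
    have h := congrArg (X.presheaf.map (homOfLE (le_top : U.unop ≤ ⊤)).op).hom h2
    simpa only [map_ofNat, map_zero] using h
  change dlogHom d U u + dlogHom d U u = (0 : Γ(X, U.unop))
  have h' : (dlogHom d U u : Γ(X, U.unop)) + dlogHom d U u = 2 * dlogHom d U u := (two_mul _).symm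
  rw [h', h, zero_mul]

lemma H_map_zero {T : TopCat.{0}} {F G : Sheaf (Opens.grothendieckTopology T) AddCommGrpCat.{0}}
    (n : ℕ) (x : Sheaf.H F n) : Sheaf.H.map (0 : F ⟶ G) n x = 0 := by
  have h := Sheaf.H.map_add_apply (0 : F ⟶ G) (0 : F ⟶ G) x
  rw [add_zero] at h
  simpa using h

theorem taskAsm : TaskMV → TaskAsm := by
  intro hMV X Y i d h2 U V' g gi hUV hg hi hns
  let ρ : unitsSheaf X.presheaf X.sheaf.2 ⟶ unitsSheaf (pushP i) (pushP_isSheaf i) :=
    pushUnits i
  let ι := kernel.ι ρ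
  let u : (X.presheaf.obj (op (U ⊓ V')))ˣ := ⟨g, gi, hg, by rw [mul_comm]; exact hg⟩
  let v : UnitsOn X.presheaf (op (U ⊓ V')) := Additive.ofMul u
  have hv : ρ.hom.app (op (U ⊓ V')) v = 0 := by
    apply Units.ext
    exact hi
  obtain ⟨P, hP⟩ : ∃ P : (kernel ρ).obj.obj (op (U ⊓ V')), ι.hom.app (op (U ⊓ V')) P = v := by
    let S : ShortComplex (Sheaf (Opens.grothendieckTopology X) AddCommGrpCat.{0}) :=
      ShortComplex.mk (kernel.ι ρ) ρ (kernel.condition ρ)
    have hS : S.Exact := ShortComplex.exact_kernel ρ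
    let F : Sheaf (Opens.grothendieckTopology X) AddCommGrpCat.{0} ⥤ AddCommGrpCat.{0} :=
      sheafToPresheaf _ _ ⋙ (evaluation _ _).obj (op (U ⊓ V'))
    have hmono : Mono S.f := by dsimp [S]; infer_instance
    have h3 : (S.map F).Exact := hS.map_of_mono_of_preservesKernel F hmono inferInstance
    rw [ShortComplex.ab_exact_iff] at h3
    exact h3 v hv
  obtain ⟨κ, hκ⟩ := hMV _ (kernel ρ) (addS X) (ι ≫ dlogS d) U V' hUV P (by
    intro g₁ g₂ h
    apply hns g₁ g₂
    have h4 : (ι ≫ dlogS d).hom.app (op (U ⊓ V')) P =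
      (dlogS d).hom.app (op (U ⊓ V')) (ι.hom.app (op (U ⊓ V')) P) := rfl
    rw [h4, hP] at h
    exact h)
  refine ⟨Sheaf.H.map ι 1 κ, ?_, ?_⟩
  · have h5 := Sheaf.H.map_comp_apply ι ρ κ
    have h6 : ι ≫ ρ = 0 := kernel.condition ρ
    rw [h6, H_map_zero] at h5
    exact h5.symm
  · intro L' hL'
    apply hκ
    rw [Sheaf.H.map_comp_apply]
    let L'' : Sheaf.H (unitsSheaf X.presheaf X.sheaf.2) 1 := L'
    have h7 : Sheaf.H.map ι 1 κ = L'' + L'' := hL'
    rw [h7, map_add, ← Sheaf.H.map_add_apply, dlog_two d h2, H_map_zero]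

end Pool.Agent.H835R5.AsmB
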