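import Pool.Agent.H835R5.Fin

/-!
# MP_d82055_ag: the unit `g`
-/

set_option autoImplicit false

open CategoryTheory AlgebraicGeometry TopologicalSpace Opposite Limits

namespace Pool.Agent.H835R5

lemma two_eq_zero_A2 : (2 : A2) = 0 := by
  have h : ((2 : ℕ) : A2) = PowerSeries.C ((2 : ℕ) : ZMod 2) := (map_natCast _ 2).symm
  have h2 : ((2 : ℕ) : ZMod 2) = 0 := by decide
  rw [h2, map_zero] at h
  exact_mod_cast h

lemma ring_id {R : Type} [CommRing R] (h2 : (2 : R) = 0) (x y a s : R)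
    (E1 : y ^ 2 + y = x ^ 3) (E2 : (a * s) ^ 2 + a * s = s ^ 3) :
    ((1 + y) + s * x ^ 2) * x * (x ^ 2 + s * x * y + s ^ 2 * y ^ 2 + a * y * (1 + (1 + a * s) * y)) =
      (1 + y) * (y * (1 + a * x) * (1 + (1 + a * s) * y)) := by
  have h1 : ((1 + y) + s * x ^ 2) * x = (1 + y) * (x + s * y) := by
    linear_combination (-s) * E1
  have h3 : (x + s * y) * (x ^ 2 + s * x * y + s ^ 2 * y ^ 2 + a * y * (1 + (1 + a * s) * y)) =
      y * (1 + a * x) * (1 + (1 + a * s) * y) := by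
    linear_combination (-1) * E1 + y ^ 3 * E2 +
      (s ^ 3 * y ^ 3 + s * x ^ 2 * y + s ^ 2 * x * y ^ 2) * h2
  rw [h1, mul_assoc, h3]

lemma cst_rs {X : Scheme.{0}} {A : Type} [CommRing A] (c : A →+* Γ(X, ⊤)) {V W : X.Opens}
    (h : W ≤ V) (a : A) : rs h (cst c V a) = cst c W a := by
  change (X.presheaf.map _).hom ((X.presheaf.map _).hom (c a)) = (X.presheaf.map _).hom (c a)
  rw [← CommRingCat.comp_apply, ← X.presheaf.map_comp]
  rfl

lemma rs_rs {X : Scheme.{0}} {V W W' : X.Opens} (h : W ≤ V) (h' : W' ≤ W) (a : Γ(X, V)) :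
    rs h' (rs h a) = rs (h'.trans h) a := by
  change (X.presheaf.map _).hom ((X.presheaf.map _).hom a) = (X.presheaf.map _).hom a
  rw [← CommRingCat.comp_apply, ← X.presheaf.map_comp]
  rfl

lemma rs_add {X : Scheme.{0}} {V W : X.Opens} (h : W ≤ V) (a b : Γ(X, V)) :
    rs h (a + b) = rs h a + rs h b := map_add _ a b

lemma rs_mul {X : Scheme.{0}} {V W : X.Opens} (h : W ≤ V) (a b : Γ(X, V)) :
    rs h (a * b) = rs h a * rs h b := map_mul _ a b

lemma rs_one {X : Scheme.{0}} {V W : X.Opens} (h : W ≤ V) :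
    rs h (1 : Γ(X, V)) = 1 := map_one _

theorem taskCor : TaskCor := by
  intro X c D₁ D₂ z w x y hE a s hs hsa W h₁ h₂ hu₁ hu₂
  have h12 : W ≤ D₁ ⊓ D₂ := le_inf h₁ h₂
  have hwy : rs h₁ w * rs h₂ y = 1 := by
    have h := congrArg (rs h12) hE.cmpw
    simp only [map_mul, map_one] at h
    have e1 := rs_rs (inf_le_left : D₁ ⊓ D₂ ≤ D₁) h12 w
    have e2 := rs_rs (inf_le_right : D₁ ⊓ D₂ ≤ D₂) h12 y
    rw [← e1, ← e2]
    exact h
  have hy : IsUnit (rs h₂ y) := IsUnit.of_mul_eq_one_right _ hwy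
  have hrel : (rs h₂ y) ^ 2 + rs h₂ y = (rs h₂ x) ^ 3 := by
    have h := congrArg (rs h₂) hE.rel₂
    simpa only [map_add, map_pow] using h
  have h2 : (2 : Γ(X, W)) = 0 := by
    have h := congrArg (cst c W) two_eq_zero_A2
    simpa only [map_ofNat, map_zero] using h
  have e3 : rs h₂ (1 + cst c D₂ a * x) = 1 + cst c W a * rs h₂ x := by
    rw [rs_add, rs_one, rs_mul, cst_rs]
  have e4 : rs h₁ ((1 + w) * ((1 + cst c D₁ (a * s)) + w)) =
      (1 + rs h₁ w) * ((1 + cst c W (a * s)) + rs h₁ w) := by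
    rw [rs_mul, rs_add, rs_add, rs_add, rs_one, cst_rs]
  rw [e3] at hu₁
  rw [e4] at hu₂
  have h5 : 1 + rs h₂ y = rs h₂ y * (1 + rs h₁ w) := by linear_combination (-1) * hwy
  have h6 : IsUnit (1 + rs h₂ y) := by
    rw [h5]
    exact hy.mul (isUnit_of_mul_isUnit_left hu₂)
  have h7 : 1 + (1 + cst c W a * cst c W s) * rs h₂ y =
      rs h₂ y * ((1 + cst c W (a * s)) + rs h₁ w) := by
    rw [map_mul]
    linear_combination (-1) * hwy
  have h8 : IsUnit (1 + (1 + cst c W a * cst c W s) * rs h₂ y) := by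
    rw [h7]
    exact hy.mul (isUnit_of_mul_isUnit_right hu₂)
  have hE2 : (cst c W a * cst c W s) ^ 2 + cst c W a * cst c W s = (cst c W s) ^ 3 := by
    have h := congrArg (cst c W) hsa
    simpa only [map_add, map_pow, map_mul] using h
  have hid := ring_id h2 (rs h₂ x) (rs h₂ y) (cst c W a) (cst c W s) hrel hE2
  obtain ⟨y1', hy1'⟩ := h6.exists_right_inv
  have hR : IsUnit (rs h₂ y * (1 + cst c W a * rs h₂ x) *
      (1 + (1 + cst c W a * cst c W s) * rs h₂ y)) := (hy.mul hu₁).mul h8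
  have hg : IsUnit (1 + cst c W s * ((rs h₂ x) ^ 2 * y1')) := by
    refine isUnit_of_mul_isUnit_left (y := (rs h₂ x) * ((rs h₂ x) ^ 2 +
      cst c W s * rs h₂ x * rs h₂ y + (cst c W s) ^ 2 * (rs h₂ y) ^ 2 +
      cst c W a * rs h₂ y * (1 + (1 + cst c W a * cst c W s) * rs h₂ y))) ?_
    have h9 : (1 + cst c W s * ((rs h₂ x) ^ 2 * y1')) * ((rs h₂ x) * ((rs h₂ x) ^ 2 +
      cst c W s * rs h₂ x * rs h₂ y + (cst c W s) ^ 2 * (rs h₂ y) ^ 2 +
      cst c W a * rs h₂ y * (1 + (1 + cst c W a * cst c W s) * rs h₂ y))) =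
      rs h₂ y * (1 + cst c W a * rs h₂ x) *
        (1 + (1 + cst c W a * cst c W s) * rs h₂ y) := by
      refine h6.mul_left_cancel ?_
      rw [← hid]
      linear_combination (cst c W s * (rs h₂ x) ^ 2 * ((rs h₂ x) * ((rs h₂ x) ^ 2 +
        cst c W s * rs h₂ x * rs h₂ y + (cst c W s) ^ 2 * (rs h₂ y) ^ 2 +
        cst c W a * rs h₂ y * (1 + (1 + cst c W a * cst c W s) * rs h₂ y)))) * hy1'
    rw [h9]
    exact hR
  obtain ⟨gi, hgi⟩ := hg.exists_right_inv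
  exact ⟨hy, h6, _, gi, y1', hy1', rfl, hgi⟩

end Pool.Agent.H835R5
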