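import Pool.Agent.H835R5.Cor
import Pool.Agent.H399R5.Hen

/-!
# MP_d82055_ag: the unit `g` does not split
-/

set_option autoImplicit false

open CategoryTheory AlgebraicGeometry TopologicalSpace Opposite Limits

namespace Pool.Agent.H835R5

lemma D_one {X : Scheme.{0}} (d : DerX X) (U : X.Opens) : d.D U 1 = 0 := by
  have h := d.leib U 1 1
  rw [one_mul, one_mul] at h
  simpa using h

lemma deriv_pow (k : ℕ) : PowerSeries.derivative (ZMod 2) ((PowerSeries.X : A2) ^ (2 * k + 1)) =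
    PowerSeries.X ^ (2 * k) := by
  ext n
  rw [PowerSeries.coeff_derivative]
  simp only [PowerSeries.coeff_X_pow]
  by_cases h : n = 2 * k
  · subst h
    simp only [if_true, one_mul]
    push_cast
    have h2 : (2 : ZMod 2) = 0 := by decide
    rw [h2]
    ring
  · have h' : n + 1 ≠ 2 * k + 1 := by omega
    simp [h]

theorem core (hC : TaskCov2) (hS : TaskSpl) (hN : TaskNS) {X : Scheme.{0}} {c : A2 →+* Γ(X, ⊤)}
    {D₁ D₂ : X.Opens} {z w : Γ(X, D₁)} {x y : Γ(X, D₂)} (hE : EC X c D₁ D₂ z w x y)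
    (d : DerX X) (hd : ∀ (U : X.Opens) (a : A2), d.D U (cst c U a) =
      cst c U (PowerSeries.derivative (ZMod 2) a)) (hx : d.D D₂ x = 0) (hy : d.D D₂ y = 0)
    (m : ℕ) :
    ∃ (U V' : X.Opens) (g gi hh : Γ(X, U ⊓ V')), U ⊔ V' = ⊤ ∧ g * gi = 1 ∧
      g = 1 + cst c (U ⊓ V') (PowerSeries.X ^ m) * hh ∧
      ∀ (u : Γ(X, U)) (v : Γ(X, V')), gi * d.D _ g ≠ rs inf_le_left u + rs inf_le_right v := by
  have hXs : (PowerSeries.X : A2) ∣ PowerSeries.X ^ (2 * m + 1) := dvd_pow_self _ (by omega)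
  obtain ⟨a, ha, hsa⟩ := Pool.Agent.H399R5.Hen.taskHen (PowerSeries.X ^ (2 * m + 1)) hXs
  set s : A2 := PowerSeries.X ^ (2 * m + 1) with hs
  have hcov := hC X c D₁ D₂ z w x y hE a s hXs hsa
  set fU : Γ(X, D₂) := 1 + cst c D₂ a * x with hfU
  set fV : Γ(X, D₁) := (1 + w) * ((1 + cst c D₁ (a * s)) + w) with hfV
  have hU₂ : X.basicOpen fU ≤ D₂ := X.basicOpen_le fU
  have hV₁ : X.basicOpen fV ≤ D₁ := X.basicOpen_le fV
  have h₁ : X.basicOpen fU ⊓ X.basicOpen fV ≤ D₁ := inf_le_right.trans hV₁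
  have h₂ : X.basicOpen fU ⊓ X.basicOpen fV ≤ D₂ := inf_le_left.trans hU₂
  have hu₁ : IsUnit (rs h₂ fU) := by
    have h := X.toRingedSpace.isUnit_res_basicOpen fU
    have h' := IsUnit.map (X.presheaf.map (homOfLE
      (inf_le_left : X.basicOpen fU ⊓ X.basicOpen fV ≤ X.basicOpen fU)).op).hom h
    have e := rs_rs hU₂ (inf_le_left : X.basicOpen fU ⊓ X.basicOpen fV ≤ X.basicOpen fU) fU
    rw [← e]
    exact h'
  have hu₂ : IsUnit (rs h₁ fV) := by
    have h := X.toRingedSpace.isUnit_res_basicOpen fV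
    have h' := IsUnit.map (X.presheaf.map (homOfLE
      (inf_le_right : X.basicOpen fU ⊓ X.basicOpen fV ≤ X.basicOpen fV)).op).hom h
    have e := rs_rs hV₁ (inf_le_right : X.basicOpen fU ⊓ X.basicOpen fV ≤ X.basicOpen fV) fV
    rw [← e]
    exact h'
  obtain ⟨huy, huy1, g, gi, y1', hy1', hg, hgi⟩ :=
    taskCor X c D₁ D₂ z w x y hE a s hXs hsa _ h₁ h₂ hu₁ hu₂
  have hDx : d.D _ (rs h₂ x) = 0 := by rw [← d.res, hx]; exact map_zero _
  have hDy : d.D _ (rs h₂ y) = 0 := by rw [← d.res, hy]; exact map_zero _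
  have hDy1 : d.D _ y1' = 0 := by
    have h := congrArg (d.D _) hy1'
    rw [d.leib, D_one, map_add, D_one, hDy, add_zero, mul_zero, add_zero] at h
    exact (huy1.mul_right_eq_zero).1 h
  have hDg : d.D _ g = cst c _ (PowerSeries.X ^ (2 * m + 1 - 1)) * ((rs h₂ x) ^ 2 * y1') := by
    have h3 : PowerSeries.derivative (ZMod 2) s = PowerSeries.X ^ (2 * m + 1 - 1) := by
      rw [hs, deriv_pow]
      rfl
    rw [hg, map_add, D_one, zero_add, d.leib, d.leib, pow_two, d.leib, hDx, hDy1, hd, h3]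
    ring
  refine ⟨X.basicOpen fU, X.basicOpen fV, g, gi,
    cst c _ (PowerSeries.X ^ (m + 1)) * ((rs h₂ x) ^ 2 * y1'), hcov, hgi, ?_, ?_⟩
  · have hsp : s = PowerSeries.X ^ m * PowerSeries.X ^ (m + 1) := by
      rw [hs, ← pow_add]
      congr 1
      omega
    have hsp' := congrArg (cst c (X.basicOpen fU ⊓ X.basicOpen fV)) hsp
    rw [map_mul] at hsp'
    rw [hg, hsp', mul_assoc]
  · rw [hDg]
    exact hS hN X c D₁ D₂ z w x y hE (2 * m + 1) a (by omega)
      ((Dvd.intro_left _ (by rw [← pow_succ])).trans ha) _ _ rfl rfl h₂ g gi y1' hy1' hg hgi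

end Pool.Agent.H835R5
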