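import Pool.Agent.H835R5.Stmts

/-!
# Task UNITS: the units of a sheaf of commutative rings form a sheaf of abelian groups
-/

set_option autoImplicit false

open CategoryTheory AlgebraicGeometry TopologicalSpace Opposite

namespace Pool.Agent.H835R5

/-- two units with the same value are equal -/
lemma UnitsOn.val_inj {T : TopCat.{0}} {R : TopCat.Presheaf CommRingCat.{0} T} {U : (Opens T)ᵒᵖ}
    {u v : UnitsOn R U} (h : u.val = v.val) : u = v :=
  Units.ext h

lemma UnitsOn.val_mul_neg {T : TopCat.{0}} {R : TopCat.Presheaf CommRingCat.{0} T}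
    {U : (Opens T)ᵒᵖ} (u : UnitsOn R U) : u.val * (-u).val = 1 :=
  Units.mul_inv (show (R.obj U)ˣ from u)

lemma UnitsOn.val_unitsHom {T : TopCat.{0}} {R : TopCat.Presheaf CommRingCat.{0} T}
    {U V : (Opens T)ᵒᵖ} (φ : R.obj U ⟶ R.obj V) (u : UnitsOn R U) :
    (unitsHom (R' := R) φ u).val = φ.hom u.val := rfl

theorem taskUnits : TaskUnits := by
  intro T R hR
  rw [TopCat.Presheaf.isSheaf_iff_isSheafUniqueGluing]
  intro ι U sf hsf
  let S : TopCat.Sheaf CommRingCat.{0} T := ⟨R, hR⟩
  -- the values and the inverses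
  let a : ∀ i, R.obj (op (U i)) := fun i => UnitsOn.val (R := R) (U := op (U i)) (sf i)
  let b : ∀ i, R.obj (op (U i)) := fun i =>
    UnitsOn.val (R := R) (U := op (U i)) (-(show UnitsOn R (op (U i)) from sf i))
  have hab : ∀ i, a i * b i = 1 := fun i => UnitsOn.val_mul_neg (R := R) (U := op (U i)) (sf i)
  have hcompat : ∀ i j, unitsHom (R' := R) (R.map (Opens.infLELeft (U i) (U j)).op) (sf i) =
      unitsHom (R' := R) (R.map (Opens.infLERight (U i) (U j)).op) (sf j) := fun i j => hsf i j
  have ha : TopCat.Presheaf.IsCompatible R U a := by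
    intro i j
    exact congrArg UnitsOn.val (hcompat i j)
  have hb : TopCat.Presheaf.IsCompatible R U b := by
    intro i j
    have h := congrArg (fun u => UnitsOn.val (-u)) (hcompat i j)
    simp only [← map_neg] at h
    exact h
  obtain ⟨s, hs, hsu⟩ := TopCat.Sheaf.existsUnique_gluing S U a ha
  obtain ⟨t, ht, -⟩ := TopCat.Sheaf.existsUnique_gluing S U b hb
  have hst : (show R.obj (op (iSup U)) from s) * (show R.obj (op (iSup U)) from t) = 1 := by
    refine TopCat.Sheaf.eq_of_locally_eq S U _ _ ?_
    intro i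
    have h1 : (R.map (Opens.leSupr U i).op).hom s = a i := hs i
    have h2 : (R.map (Opens.leSupr U i).op).hom t = b i := ht i
    have h3 : (R.map (Opens.leSupr U i).op).hom
        ((show R.obj (op (iSup U)) from s) * (show R.obj (op (iSup U)) from t)) =
        (R.map (Opens.leSupr U i).op).hom 1 := by
      rw [map_mul, map_one]
      exact (congrArg₂ (· * ·) h1 h2).trans (hab i)
    exact h3
  let u : (R.obj (op (iSup U)))ˣ := ⟨s, t, hst, by rw [mul_comm]; exact hst⟩
  refine ⟨(show UnitsOn R (op (iSup U)) from Additive.ofMul u), ?_, ?_⟩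
  · intro i
    refine UnitsOn.val_inj (R := R) (U := op (U i)) ?_
    exact hs i
  · intro v hv
    refine UnitsOn.val_inj (R := R) (U := op (iSup U)) ?_
    refine hsu _ ?_
    intro i
    exact congrArg (UnitsOn.val (R := R) (U := op (U i))) (hv i)

end Pool.Agent.H835R5
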