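import Pool.Agent.H835R5.Stmts
import Pool.Agent.H835R5.T_Units

/-!
# MP_d82055_ag: the definitions used in the statement of the result

`X` is a scheme over a discrete valuation ring `A`, smooth of relative dimension one, so that
`CH_1(X) = H^1(X, K^M_1) = H^1(X, O_X^*)`, and `X_n = X ×_A A/(πⁿ)`.
-/

set_option autoImplicit false

open CategoryTheory AlgebraicGeometry TopologicalSpace Opposite Limits

namespace Pool.Agent.H835R5

attribute [local instance] MvPolynomial.gradedAlgebra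

/-- The sheaf of abelian groups `R^*` of units of a sheaf of commutative rings `R` (`h` says that
the presheaf `R` is a sheaf): `U ↦ R(U)ˣ`. -/
noncomputable def unitsSheaf {T : TopCat.{0}} (R : TopCat.Presheaf CommRingCat.{0} T)
    (h : R.IsSheaf) : Sheaf (Opens.grothendieckTopology T) AddCommGrpCat.{0} :=
  ⟨unitsPresheaf R, taskUnits T R h⟩

/-- For `i : Y ⟶ X`, the sheaf of rings `i_* O_Y`, that is `U ↦ Γ(Y, i⁻¹ U)`, on `X`. -/
noncomputable def pushP {X Y : Scheme.{0}} (i : Y ⟶ X) :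
    TopCat.Presheaf CommRingCat.{0} X.toTopCat :=
  (TopCat.Presheaf.pushforward CommRingCat.{0} i.base).obj Y.presheaf

lemma pushP_isSheaf {X Y : Scheme.{0}} (i : Y ⟶ X) : (pushP i).IsSheaf :=
  TopCat.Sheaf.pushforward_sheaf_of_sheaf i.base Y.sheaf.2

/-- The map of sheaves of rings `O_X ⟶ i_* O_Y`. -/
noncomputable def pushMap {X Y : Scheme.{0}} (i : Y ⟶ X) : X.presheaf ⟶ pushP i where
  app U := i.app U.unop
  naturality _ _ j := i.naturality j

/-- First cohomology of a sheaf of abelian groups on a topological space (Mathlib's `Sheaf.H`). -/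
def SH {T : TopCat.{0}} (F : Sheaf (Opens.grothendieckTopology T) AddCommGrpCat.{0}) : Type :=
  Sheaf.H F 1

noncomputable instance instAddCommGroupSH {T : TopCat.{0}}
    (F : Sheaf (Opens.grothendieckTopology T) AddCommGrpCat.{0}) : AddCommGroup (SH F) :=
  (inferInstance : AddCommGroup (Sheaf.H F 1))

/-- The map on first cohomology induced by a map of sheaves. -/
noncomputable def SH.map {T : TopCat.{0}}
    {F G : Sheaf (Opens.grothendieckTopology T) AddCommGrpCat.{0}} (f : F ⟶ G) : SH F →+ SH G :=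
  Sheaf.H.map f 1

/-- `H^1(X, O_X^*)`. -/
abbrev HOne (X : Scheme.{0}) : Type := SH (unitsSheaf X.presheaf X.sheaf.2)

/-- `H^1(X, (i_* O_Y)^*)`. -/
abbrev HOnePush {X Y : Scheme.{0}} (i : Y ⟶ X) : Type :=
  SH (unitsSheaf (pushP i) (pushP_isSheaf i))

/-- The map of sheaves `O_X^* ⟶ (i_* O_Y)^*`. -/
noncomputable def pushUnits {X Y : Scheme.{0}} (i : Y ⟶ X) :
    unitsSheaf X.presheaf X.sheaf.2 ⟶ unitsSheaf (pushP i) (pushP_isSheaf i) :=
  ⟨unitsMap (pushMap i)⟩

/-- The restriction map `H^1(X, O_X^*) ⟶ H^1(X, (i_* O_Y)^*)` induced by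
`O_X^* ⟶ (i_* O_Y)^*`. -/
noncomputable def resPush {X Y : Scheme.{0}} (i : Y ⟶ X) : HOne X →+ HOnePush i :=
  SH.map (pushUnits i)

/-- For `X` over `Spec A`: the closed immersion of `X_n = X ×_A A/(πⁿ)` in `X`. -/
noncomputable def thickening {A : Type} [CommRing A] {X : Scheme.{0}} (f : X ⟶ Spec (.of A))
    (π : A) (n : ℕ) :
    pullback f (Spec.map (CommRingCat.ofHom (Ideal.Quotient.mk (Ideal.span {π ^ n})))) ⟶ X :=
  pullback.fst f _

/-- Condition (i) at a given level: `ρ` vanishes on `F` and the induced map `G/F → H` has an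
inverse map `σ`. -/
def CondI {G H : Type} [AddCommGroup G] [AddCommGroup H] (ρ : G →+ H) (F : AddSubgroup G) : Prop :=
  ∃ (h : F ≤ ρ.ker) (σ : H →+ G ⧸ F),
    (∀ q, σ (QuotientAddGroup.lift F ρ h q) = q) ∧
    (∀ b, QuotientAddGroup.lift F ρ h (σ b) = b)

/-- Condition (ii): for every `r ≥ 1` the pro-abelian group `(F_n ⊗ ℤ/p^r)_n` is zero, i.e. for
every `n` there is `m ≥ n` with `F_m ⊆ p^r F_n`. -/
def CondII {G : Type} [AddCommGroup G] (p : ℕ) (F : ℕ → AddSubgroup G) : Prop :=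
  ∀ r, 1 ≤ r → ∀ n, 1 ≤ n → ∃ m, n ≤ m ∧ ∀ a ∈ F m, ∃ b ∈ F n, a = (p ^ r) • b

/-- There is a decreasing filtration `F_1 ⊇ F_2 ⊇ ...` of `H^1(X, O_X^*)` with (i) for every
`n ≥ 1` and (ii). -/
def HasKerzFiltration {A : Type} [CommRing A] {X : Scheme.{0}} (f : X ⟶ Spec (.of A))
    (π : A) (p : ℕ) : Prop :=
  ∃ F : ℕ → AddSubgroup (HOne X), (∀ n, 1 ≤ n → F (n + 1) ≤ F n) ∧
    (∀ n, 1 ≤ n → CondI (resPush (thickening f π n)) (F n)) ∧ CondII p F

/-- For every `n` the kernel of `res_n` on `H^1(X, O_X^*)` has a class that is not divisible by `p`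
in `H^1(X, O_X^*)`. -/
def KerNotDivisible {A : Type} [CommRing A] {X : Scheme.{0}} (f : X ⟶ Spec (.of A))
    (π : A) (p : ℕ) : Prop :=
  ∀ n : ℕ, ∃ L : HOne X, resPush (thickening f π n) L = 0 ∧ ∀ L' : HOne X, L ≠ p • L'

/-- `X` is projective over `Spec A`: a closed subscheme of some `Pⁿ_A`. -/
def IsProjOver {X : Scheme.{0}} {A : Type} [CommRing A] (f : X ⟶ Spec (.of A)) : Prop :=
  ∃ (n : ℕ) (i : X ⟶ Proj (MvPolynomial.homogeneousSubmodule (Fin (n + 1)) A)),
    IsClosedImmersion i ∧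
    i ≫ (Proj.toSpecZero (MvPolynomial.homogeneousSubmodule (Fin (n + 1)) A) ≫
      Spec.map (CommRingCat.ofHom
        (algebraMap A (MvPolynomial.homogeneousSubmodule (Fin (n + 1)) A 0)))) = f

end Pool.Agent.H835R5
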