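import Mathlib

/-!
# MP_d82055_ag: the presheaf of units of a presheaf of commutative rings
-/

set_option autoImplicit false

open CategoryTheory AlgebraicGeometry TopologicalSpace Opposite

namespace Pool.Agent.H835R5

/-! ### the sheaf of units -/

/-- The group `R(U)ˣ` of units of the ring of sections, written additively. -/
def UnitsOn {T : TopCat.{0}} (R : TopCat.Presheaf CommRingCat.{0} T) (U : (Opens T)ᵒᵖ) : Type :=
  Additive (R.obj U)ˣ

noncomputable instance instAddCommGroupUnitsOn {T : TopCat.{0}}
    (R : TopCat.Presheaf CommRingCat.{0} T) (U : (Opens T)ᵒᵖ) : AddCommGroup (UnitsOn R U) :=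
  Additive.addCommGroup

/-- The value of a unit. -/
def UnitsOn.val {T : TopCat.{0}} {R : TopCat.Presheaf CommRingCat.{0} T} {U : (Opens T)ᵒᵖ}
    (u : UnitsOn R U) : R.obj U := ((show Additive (R.obj U)ˣ from u).toMul : R.obj U)

/-- A ring homomorphism induces a homomorphism of the groups of units. -/
noncomputable def unitsHom {T : TopCat.{0}} {R R' : TopCat.Presheaf CommRingCat.{0} T}
    {U V : (Opens T)ᵒᵖ} (φ : R.obj U ⟶ R'.obj V) : UnitsOn R U →+ UnitsOn R' V :=
  (Units.map (φ.hom : R.obj U →* R'.obj V)).toAdditive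

/-- The presheaf of abelian groups `U ↦ R(U)ˣ`. -/
noncomputable def unitsPresheaf {T : TopCat.{0}} (R : TopCat.Presheaf CommRingCat.{0} T) :
    TopCat.Presheaf AddCommGrpCat.{0} T where
  obj U := AddCommGrpCat.of (UnitsOn R U)
  map i := AddCommGrpCat.ofHom (unitsHom (R.map i))
  map_id U := by
    ext u
    apply Units.ext
    exact congrArg (fun φ : R.obj U ⟶ R.obj U => φ.hom u.val) (R.map_id U)
  map_comp i j := by
    ext u
    apply Units.ext
    exact congrArg (fun φ => φ.hom u.val) (R.map_comp i j)

/-- The map of presheaves of units induced by a map of presheaves of rings. -/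
noncomputable def unitsMap {T : TopCat.{0}} {R R' : TopCat.Presheaf CommRingCat.{0} T}
    (φ : R ⟶ R') : unitsPresheaf R ⟶ unitsPresheaf R' where
  app U := AddCommGrpCat.ofHom (unitsHom (φ.app U))
  naturality U V i := by
    ext u
    apply Units.ext
    exact congrArg (fun ψ => ψ.hom u.val) (φ.naturality i)

end Pool.Agent.H835R5
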