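import Pool.Agent.H835R5.Defs

/-!
# MP_d82055_ag: tasks
-/

set_option autoImplicit false

open CategoryTheory AlgebraicGeometry TopologicalSpace Opposite Limits

namespace Pool.Agent.H835R5

attribute [local instance] MvPolynomial.gradedAlgebra

/-- TASK ASM -/
def TaskAsm : Prop := ∀ (X Y : Scheme.{0}) (i : Y ⟶ X) (d : DerX X), (2 : Γ(X, ⊤)) = 0 →
  ∀ (U V' : X.Opens) (g gi : Γ(X, U ⊓ V')), U ⊔ V' = ⊤ → g * gi = 1 →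
  (i.app (U ⊓ V')).hom g = 1 →
  (∀ (u : Γ(X, U)) (v : Γ(X, V')), gi * d.D _ g ≠ rs inf_le_left u + rs inf_le_right v) →
  ∃ L : HOne X, resPush i L = 0 ∧ ∀ L' : HOne X, L ≠ L' + L'

/-- TASK COV2 -/
def TaskCov2 : Prop := ∀ (X : Scheme.{0}) (c : A2 →+* Γ(X, ⊤)) (D₁ D₂ : X.Opens)
  (z w : Γ(X, D₁)) (x y : Γ(X, D₂)), EC X c D₁ D₂ z w x y →
  ∀ (a s : A2), PowerSeries.X ∣ s → (a * s) ^ 2 + a * s = s ^ 3 →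
  X.basicOpen (1 + cst c D₂ a * x) ⊔
    X.basicOpen ((1 + w) * ((1 + cst c D₁ (a * s)) + w)) = ⊤

/-- TASK COR -/
def TaskCor : Prop := ∀ (X : Scheme.{0}) (c : A2 →+* Γ(X, ⊤)) (D₁ D₂ : X.Opens)
  (z w : Γ(X, D₁)) (x y : Γ(X, D₂)), EC X c D₁ D₂ z w x y →
  ∀ (a s : A2), PowerSeries.X ∣ s → (a * s) ^ 2 + a * s = s ^ 3 →
  ∀ (W : X.Opens) (h₁ : W ≤ D₁) (h₂ : W ≤ D₂),
  IsUnit (rs h₂ (1 + cst c D₂ a * x)) →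
  IsUnit (rs h₁ ((1 + w) * ((1 + cst c D₁ (a * s)) + w))) →
  IsUnit (rs h₂ y) ∧ IsUnit (1 + rs h₂ y) ∧
  ∃ g gi y1' : Γ(X, W), (1 + rs h₂ y) * y1' = 1 ∧
    g = 1 + cst c W s * ((rs h₂ x) ^ 2 * y1') ∧ g * gi = 1

/-- TASK SPL: the section does not split. -/
def TaskSpl : Prop := TaskNS → ∀ (X : Scheme.{0}) (c : A2 →+* Γ(X, ⊤)) (D₁ D₂ : X.Opens)
  (z w : Γ(X, D₁)) (x y : Γ(X, D₂)), EC X c D₁ D₂ z w x y →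
  ∀ (M : ℕ) (a : A2), 1 ≤ M → PowerSeries.X ^ M ∣ a →
  ∀ (U V' : X.Opens), U = X.basicOpen (1 + cst c D₂ a * x) →
  V' = X.basicOpen ((1 + w) * ((1 + cst c D₁ (a * PowerSeries.X ^ M)) + w)) →
  ∀ (h₂ : U ⊓ V' ≤ D₂) (g gi y1' : Γ(X, U ⊓ V')), (1 + rs h₂ y) * y1' = 1 →
  g = 1 + cst c (U ⊓ V') (PowerSeries.X ^ M) * ((rs h₂ x) ^ 2 * y1') → g * gi = 1 →
  ∀ (u : Γ(X, U)) (v : Γ(X, V')),
    gi * (cst c (U ⊓ V') (PowerSeries.X ^ (M - 1)) * ((rs h₂ x) ^ 2 * y1')) ≠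
      rs inf_le_left u + rs inf_le_right v

/-- the base ring -/
def TaskA2 : Prop := IsDiscreteValuationRing A2 ∧ IsAdicComplete (IsLocalRing.maximalIdeal A2) A2 ∧
  HenselianLocalRing A2 ∧ CharP (IsLocalRing.ResidueField A2) 2

end Pool.Agent.H835R5
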