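import Pool.Agent.H835R5.Stmts
import Pool.Agent.Helper198.SchP
import Pool.Agent.Helper198.SchO

/-!
# MP_d82055_ag: the curve `Y²Z + YZ² = X³`, tasks
-/

set_option autoImplicit false

open CategoryTheory AlgebraicGeometry TopologicalSpace Opposite
open Pool.Agent.Helper198.Sch

namespace Pool.Agent.H835R5

attribute [local instance] MvPolynomial.gradedAlgebra

/-- `Y²Z + YZ² - X³` with `X, Y, Z` the variables `0, 1, 2`. -/
noncomputable def cubic (R : Type) [CommRing R] : MvPolynomial (Fin 3) R :=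
  MvPolynomial.X 1 ^ 2 * MvPolynomial.X 2 + MvPolynomial.X 1 * MvPolynomial.X 2 ^ 2 -
    MvPolynomial.X 0 ^ 3

lemma cubic_hom (R : Type) [CommRing R] : (cubic R).IsHomogeneous 3 := by
  unfold cubic
  have h : ∀ i : Fin 3, (MvPolynomial.X i : MvPolynomial (Fin 3) R).IsHomogeneous 1 :=
    fun i => MvPolynomial.isHomogeneous_X R i
  exact ((((h 1).pow 2).mul (h 2)).add ((h 1).mul ((h 2).pow 2))).sub ((h 0).pow 3)

/-- the homogeneous ideal of the curve -/
noncomputable def JE (R : Type) [CommRing R] : HI (Fin 3) R :=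
  HI.ofSet {cubic R} (fun f hf => ⟨3, by rw [Set.mem_singleton_iff.1 hf]; exact cubic_hom R⟩)

/-- the curve -/
noncomputable abbrev XE (R : Type) [CommRing R] : Scheme.{0} := V (JE R)

/-- the structure map of the curve -/
noncomputable abbrev strE (R : Type) [CommRing R] : XE R ⟶ Spec (.of R) := V.str (JE R)

/-- the relation of the chart rings -/
noncomputable def relQ (R : Type) [CommRing R] : MvPolynomial (Fin 2) R :=
  MvPolynomial.X 1 ^ 2 + MvPolynomial.X 1 - MvPolynomial.X 0 ^ 3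

/-- the explicit chart ring `R[x, y]/(y² + y - x³)` -/
abbrev QQ (R : Type) [CommRing R] : Type := MvPolynomial (Fin 2) R ⧸ Ideal.span {relQ R}

/-- its generators -/
noncomputable def gq (R : Type) [CommRing R] (i : Fin 2) : QQ R := Ideal.Quotient.mk _ (MvPolynomial.X i)

/-- TASK CH: the chart rings. -/
def TaskCh : Prop := ∀ (R : Type) [CommRing R],
  (∃ e : Ch (JE R) 2 ≃ₐ[R] QQ R, e (frac (JE R) 2 0) = gq R 0 ∧ e (frac (JE R) 2 1) = gq R 1) ∧
  (∃ e : Ch (JE R) 1 ≃ₐ[R] QQ R, e (frac (JE R) 1 0) = gq R 0 ∧ e (frac (JE R) 1 2) = gq R 1)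

/-- TASK DOM -/
def TaskDom : Prop := ∀ (R : Type) [CommRing R] [IsDomain R], IsDomain (QQ R)

/-- TASK COV -/
def TaskCov : Prop := ∀ (R : Type) [CommRing R] (x : XE R), x ∈ V.D (JE R) 1 ∨ x ∈ V.D (JE R) 2

/-- TASK SM -/
def TaskSm : Prop := TaskCh → TaskCov → ∀ (R : Type) [CommRing R] [CharP R 2],
  SmoothOfRelativeDimension 1 (strE R)

/-- sections over the chart `w_c ≠ 0` -/
noncomputable def sc {σ R : Type} [CommRing R] (J : HI σ R) (c : σ) : Ch J c →+* Γ(V J, V.D J c) :=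
  (Proj.awayToSection (qgrad J.toIdeal) (gen J c)).hom

/-- constants -/
noncomputable def cJ {σ R : Type} [CommRing R] (J : HI σ R) : R →+* Γ(V J, ⊤) :=
  ((V.str J).appTop.hom).comp (Scheme.ΓSpecIso (.of R)).inv.hom

/-- TASK CMP: sections over the charts. -/
def TaskCmp : Prop := ∀ (σ R : Type) [CommRing R] (J : HI σ R),
  (∀ c, Function.Bijective (sc J c)) ∧ (∀ c, IsAffineOpen (V.D J c)) ∧
  (∀ c (a : R), sc J c (algebraMap R (Ch J c) a) = cst (cJ J) (V.D J c) a) ∧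
  (∀ c c', (V J).basicOpen (sc J c (frac J c c')) = V.D J c ⊓ V.D J c') ∧
  (∀ c c' a, rs (inf_le_left : V.D J c ⊓ V.D J c' ≤ V.D J c) (sc J c (frac J c a)) =
    rs (inf_le_left : V.D J c ⊓ V.D J c' ≤ V.D J c) (sc J c (frac J c c')) *
      rs (inf_le_right : V.D J c ⊓ V.D J c' ≤ V.D J c') (sc J c' (frac J c' a)))

/-- TASK EC: the curve satisfies `EC`. -/
def TaskEC : Prop := TaskCh → TaskDom → TaskCov → TaskCmp → ∀ (R : Type) [CommRing R] [IsDomain R],
  EC (XE R) (cJ (JE R)) (V.D (JE R) 1) (V.D (JE R) 2)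
    (sc (JE R) 1 (frac (JE R) 1 0)) (sc (JE R) 1 (frac (JE R) 1 2))
    (sc (JE R) 2 (frac (JE R) 2 0)) (sc (JE R) 2 (frac (JE R) 2 1))

end Pool.Agent.H835R5
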