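import Pool.Agent.H835R5.Defs0

/-!
# MP_d82055_ag (Kerz's question), equal characteristic, d = 1: definitions and tasks
-/

set_option autoImplicit false

open CategoryTheory AlgebraicGeometry TopologicalSpace Opposite

namespace Pool.Agent.H835R5

/-- TASK UNITS -/
def TaskUnits : Prop := ∀ (T : TopCat.{0}) (R : TopCat.Presheaf CommRingCat.{0} T), R.IsSheaf →
  (unitsPresheaf R).IsSheaf

/-! ### cohomology -/

/-- TASK MV: Mayer-Vietoris and naturality. -/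
def TaskMV : Prop := ∀ (T : TopCat.{0}) (K G : Sheaf (Opens.grothendieckTopology T) AddCommGrpCat.{0})
  (f : K ⟶ G) (V₁ V₂ : Opens T), V₁ ⊔ V₂ = ⊤ → ∀ P : K.obj.obj (op (V₁ ⊓ V₂)),
  (∀ (g₁ : G.obj.obj (op V₁)) (g₂ : G.obj.obj (op V₂)), f.hom.app (op (V₁ ⊓ V₂)) P ≠
    G.obj.map (homOfLE (inf_le_left : V₁ ⊓ V₂ ≤ V₁)).op g₁ +
      G.obj.map (homOfLE (inf_le_right : V₁ ⊓ V₂ ≤ V₂)).op g₂) →
  ∃ κ : Sheaf.H K 1, Sheaf.H.map f 1 κ ≠ 0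

/-! ### the curve -/

/-- Restriction of sections. -/
noncomputable abbrev rs {X : Scheme.{0}} {V W : X.Opens} (h : W ≤ V) (s : Γ(X, V)) : Γ(X, W) :=
  (X.presheaf.map (homOfLE h).op).hom s

/-- Constants over `W`. -/
noncomputable def cst {X : Scheme.{0}} {A : Type} [CommRing A] (c : A →+* Γ(X, ⊤)) (W : X.Opens) :
    A →+* Γ(X, W) :=
  (X.presheaf.map (homOfLE (le_top : W ≤ ⊤)).op).hom.comp c

/-- `X` is the projective closure of `y² + y = x³` over `A`, presented by two affine charts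
(`z = x / y`, `w = 1 / y`). -/
structure EC {A : Type} [CommRing A] (X : Scheme.{0}) (c : A →+* Γ(X, ⊤)) (D₁ D₂ : X.Opens)
    (z w : Γ(X, D₁)) (x y : Γ(X, D₂)) : Prop where
  int : IsIntegral X
  af₁ : IsAffineOpen D₁
  af₂ : IsAffineOpen D₂
  cov : D₁ ⊔ D₂ = ⊤
  bo₁ : X.basicOpen w = D₁ ⊓ D₂
  bo₂ : X.basicOpen y = D₁ ⊓ D₂
  rel₁ : w ^ 2 + w = z ^ 3
  rel₂ : y ^ 2 + y = x ^ 3
  cmpw : rs (inf_le_left : D₁ ⊓ D₂ ≤ D₁) w * rs (inf_le_right : D₁ ⊓ D₂ ≤ D₂) y = 1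
  cmpz : rs (inf_le_left : D₁ ⊓ D₂ ≤ D₁) z * rs (inf_le_right : D₁ ⊓ D₂ ≤ D₂) y =
    rs (inf_le_right : D₁ ⊓ D₂ ≤ D₂) x
  gen₁ : ∀ s : Γ(X, D₁), ∃ f : MvPolynomial (Fin 2) A, MvPolynomial.eval₂ (cst c D₁) ![z, w] f = s
  gen₂ : ∀ s : Γ(X, D₂), ∃ f : MvPolynomial (Fin 2) A, MvPolynomial.eval₂ (cst c D₂) ![x, y] f = s
  ker₂ : ∀ f : MvPolynomial (Fin 2) A, MvPolynomial.eval₂ (cst c D₂) ![x, y] f = 0 →
    f ∈ Ideal.span {(MvPolynomial.X 1 ^ 2 + MvPolynomial.X 1 - MvPolynomial.X 0 ^ 3 :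
      MvPolynomial (Fin 2) A)}

/-- A derivation of the structure sheaf (over the prime ring). -/
structure DerX (X : Scheme.{0}) where
  D : ∀ U : X.Opens, Γ(X, U) →+ Γ(X, U)
  leib : ∀ (U : X.Opens) (a b : Γ(X, U)), D U (a * b) = a * D U b + b * D U a
  res : ∀ (U V : X.Opens) (h : V ≤ U) (a : Γ(X, U)), rs h (D U a) = D V (rs h a)

/-- `F₂[[t]]` -/
abbrev A2 : Type := PowerSeries (ZMod 2)

/-- TASK DER: the derivation `d/dt`. -/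
def TaskDer : Prop := ∀ (X : Scheme.{0}) (c : A2 →+* Γ(X, ⊤)) (D₁ D₂ : X.Opens)
  (z w : Γ(X, D₁)) (x y : Γ(X, D₂)), EC X c D₁ D₂ z w x y →
  ∃ d : DerX X, (∀ (U : X.Opens) (a : A2), d.D U (cst c U a) =
    cst c U (PowerSeries.derivative (ZMod 2) a)) ∧ d.D D₂ x = 0 ∧ d.D D₂ y = 0

/-- TASK NS: the ring `Λ((τ))[y]`, `Λ = F₂[t]/t^m`, `x = 1/τ`. `PU`: the polynomials in `x, y`;
`RV`: the functions regular at infinity. -/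
def TaskNS : Prop := ∀ m : ℕ, 1 ≤ m → ∃ (M : Type) (_ : CommRing M) (e : A2 →+* M) (x y x' y' y1' : M)
  (PU : AddSubgroup M) (RV : Subring M), e (PowerSeries.X ^ m) = 0 ∧ y ^ 2 + y = x ^ 3 ∧
  x * x' = 1 ∧ y * y' = 1 ∧ (1 + y) * y1' = 1 ∧
  (∀ f : MvPolynomial (Fin 2) A2, MvPolynomial.eval₂ e ![x, y] f ∈ PU) ∧
  (∀ a, e a ∈ RV) ∧ x * y' ∈ RV ∧ y' ∈ RV ∧ y * y1' ∈ RV ∧
  ∀ u ∈ PU, ∀ v ∈ RV, e (PowerSeries.X ^ (m - 1)) * (y * x') ≠ u + v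

/-- TASK HEN: a Hensel lemma. -/
def TaskHen : Prop := ∀ s : A2, PowerSeries.X ∣ s → ∃ a : A2, s ^ 2 ∣ a ∧
  (a * s) ^ 2 + a * s = s ^ 3

end Pool.Agent.H835R5
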