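import Pool.Agent.H835R5.Core
import Pool.Agent.H835R5.Stmts2
import Pool.Agent.H835R5.T.MV
import Pool.Agent.H835R5.T.Der
import Pool.Agent.H835R5.T.NS
import Pool.Agent.H87R3.KZ.Ch
import Pool.Agent.H835R5.T.Dom
import Pool.Agent.H835R5.T.CovSm
import Pool.Agent.H835R5.T.Cmp
import Pool.Agent.H835R5.T.EC
import Pool.Agent.H835R5.T.A2

/-!
# MP_d82055_ag: assembly
-/

set_option autoImplicit false

open CategoryTheory AlgebraicGeometry TopologicalSpace Opposite Limits
open Pool.Agent.Helper198.Sch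

namespace Pool.Agent.H835R5

attribute [local instance] MvPolynomial.gradedAlgebra

lemma condI_ker {G H : Type} [AddCommGroup G] [AddCommGroup H] {ρ : G →+ H} {F : AddSubgroup G}
    (h : CondI ρ F) (a : G) (ha : ρ a = 0) : a ∈ F := by
  obtain ⟨hF, σ, h1, -⟩ := h
  have h2 := h1 (QuotientAddGroup.mk a)
  rw [QuotientAddGroup.lift_mk, ha, map_zero] at h2
  exact (QuotientAddGroup.eq_zero_iff a).1 h2.symm

/-- constants for a general structure map -/
noncomputable def cF {X : Scheme.{0}} {R : Type} [CommRing R] (f : X ⟶ Spec (.of R)) :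
    R →+* Γ(X, ⊤) :=
  (f.appTop.hom).comp (Scheme.ΓSpecIso (.of R)).inv.hom

lemma app_cst {X Y : Scheme.{0}} (i : Y ⟶ X) {A : Type} [CommRing A] (c : A →+* Γ(X, ⊤))
    (W : X.Opens) (a : A) : (i.app W).hom (cst c W a) =
      (Y.presheaf.map (homOfLE (le_top : i ⁻¹ᵁ W ≤ ⊤)).op).hom (i.appTop.hom (c a)) := by
  have h := i.naturality (homOfLE (le_top : W ≤ ⊤)).op
  exact congrArg (fun φ => φ.hom (c a)) h

lemma thick_cst {X : Scheme.{0}} (f : X ⟶ Spec (.of A2)) (n : ℕ) (W : X.Opens) :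
    ((thickening f PowerSeries.X n).app W).hom (cst (cF f) W (PowerSeries.X ^ n)) = 0 := by
  rw [app_cst]
  have h1 : ((thickening f PowerSeries.X n).appTop).hom (cF f (PowerSeries.X ^ n)) = 0 := by
    have h2 : (thickening f PowerSeries.X n ≫ f).appTop = (pullback.snd f (Spec.map (CommRingCat.ofHom
      (Ideal.Quotient.mk (Ideal.span {(PowerSeries.X : A2) ^ n})))) ≫
        Spec.map (CommRingCat.ofHom
      (Ideal.Quotient.mk (Ideal.span {(PowerSeries.X : A2) ^ n})))).appTop :=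
      congrArg Scheme.Hom.appTop (pullback.condition (f := f))
    have h3 := congrArg (fun φ => φ.hom ((Scheme.ΓSpecIso (.of A2)).inv.hom
      (PowerSeries.X ^ n))) h2
    have h4 : ((Spec.map (CommRingCat.ofHom
      (Ideal.Quotient.mk (Ideal.span {(PowerSeries.X : A2) ^ n})))).appTop).hom
        ((Scheme.ΓSpecIso (.of A2)).inv.hom (PowerSeries.X ^ n)) = 0 := by
      have h5 := Scheme.ΓSpecIso_inv_naturality (CommRingCat.ofHom
        (Ideal.Quotient.mk (Ideal.span {(PowerSeries.X : A2) ^ n})))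
      have h6 := congrArg (fun φ => φ.hom ((PowerSeries.X : A2) ^ n)) h5
      have h7 : (Ideal.Quotient.mk (Ideal.span {(PowerSeries.X : A2) ^ n}))
        (PowerSeries.X ^ n) = 0 := Ideal.Quotient.eq_zero_iff_mem.2 (Ideal.mem_span_singleton_self _)
      refine h6.symm.trans ?_
      simp only [CommRingCat.hom_comp, CommRingCat.hom_ofHom, RingHom.comp_apply]
      rw [h7, map_zero]
    refine h3.trans ?_
    simp only [Scheme.Hom.comp_appTop, CommRingCat.hom_comp, RingHom.comp_apply]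
    refine (congrArg _ h4).trans (map_zero _)
  rw [h1, map_zero]

theorem main (hC : TaskCov2) (hS : TaskSpl) (hA : TaskAsm) :
    ∃ (X : Scheme.{0}) (f : X ⟶ Spec (.of A2)), IsIntegral X ∧ SmoothOfRelativeDimension 1 f ∧
      IsProjOver f ∧ KerNotDivisible f PowerSeries.X 2 ∧
      ¬ HasKerzFiltration f PowerSeries.X 2 := by
  have hE := taskEC Pool.Agent.H87R3.KZ.taskCh taskDom taskCov taskCmp A2
  have : CharP A2 2 := charP_of_injective_ringHom (PowerSeries.C_injective (R := ZMod 2)) 2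
  have key : ∀ n : ℕ, ∃ L : HOne (XE A2), resPush (thickening (strE A2) PowerSeries.X n) L = 0 ∧
      ∀ L' : HOne (XE A2), L ≠ 2 • L' := by
    intro m
    obtain ⟨d, hd, hx, hy⟩ := taskDer _ _ _ _ _ _ _ _ hE
    obtain ⟨U, V', g, gi, hh, hcov, hgi, hg, hns⟩ := core hC hS NS.taskNS hE d hd hx hy m
    have h2 : (2 : Γ(XE A2, ⊤)) = 0 := by
      have h := congrArg (cJ (JE A2)) two_eq_zero_A2
      simpa only [map_ofNat, map_zero] using h
    have hg1 : ((thickening (strE A2) PowerSeries.X m).app (U ⊓ V')).hom g = 1 := by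
      rw [hg, map_add, map_mul, map_one]
      have h := thick_cst (strE A2) m (U ⊓ V')
      have h' : ((thickening (strE A2) PowerSeries.X m).app (U ⊓ V')).hom
        (cst (cJ (JE A2)) (U ⊓ V') (PowerSeries.X ^ m)) = 0 := h
      rw [h', zero_mul, add_zero]
    obtain ⟨L, hL, hL'⟩ := hA (XE A2) _ (thickening (strE A2) PowerSeries.X m) d h2 U V' g gi
      hcov hgi hg1 hns
    exact ⟨L, hL, fun L' h => hL' L' (by rw [h, two_nsmul])⟩
  refine ⟨XE A2, strE A2, hE.int, taskSm Pool.Agent.H87R3.KZ.taskCh taskCov A2,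
    ⟨2, emb (JE A2) (Equiv.refl _), inferInstance, emb_str _ _⟩, key, ?_⟩
  rintro ⟨F, -, hI, hII⟩
  obtain ⟨m, hm, hF⟩ := hII 1 le_rfl 1 le_rfl
  obtain ⟨L, hL, hL'⟩ := key m
  obtain ⟨b, -, hb⟩ := hF L (condI_ker (hI m hm) L hL)
  apply hL' b
  rw [hb, pow_one]

end Pool.Agent.H835R5
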